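import Mathlib
import Pool.Agent.X271.DenefQ

/-!
# Denef's question: reduction to cubics prime by prime, and compositions, for EVERY prime

Let `f ∈ ℤ[x_1, …, x_n]` and let `F` be the polynomial `f(x) + ∑ y_i z_i` (`κ ≥ 1` pairs of new variables)
after an isomorphism of polynomial rings over `ℤ`. We prove for every single prime `p`: if every pole
of Igusa's Poincaré series of `F` gives a root of the Bernstein-Sato polynomial of `F` then the same is
true for `f`, also with the orders of the poles and the multiplicities of the roots. Usually `f` is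
degenerate with respect to its Newton polyhedron in all coordinates while `F` is sparse or generic: if
`f = Φ(x, p_1(x), …, p_κ(x))` then `F` can be taken to be `Φ(x, z) + ∑ y_i (z_i - p_i(x))`.

Consequences, for EVERY prime `p` (no good reduction is assumed):
* Denef's question for all polynomials and the prime `p` is equivalent to the question for the cubic
  polynomials `∑ t_j q_j(x)`, `q_j` of degree at most two with coefficients `0`, `1`, `-1`, and `p`;
* a positive answer with orders if `F` is a sum of monomials with affinely independent exponents, and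
  arbitrary coefficients;
* a positive answer for all compositions in which `Φ` and the `p_i` have generic coefficients, or only
  generic coefficients at the vertices of their Newton polytopes (and arbitrary other terms), under
  the usual condition on the facets of ONE Newton polyhedron; one genericity condition for all primes.

Method. Counting solutions of congruences gives for every prime an identity between the Poincaré
series of `F` at `T` and of `f` at `p ^ (-κ) T`; a pole `T₀` of the series of `f` gives the pole `p ^ κ T₀`,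
except if `T₀ = p`, and then `- log |T₀| / log p = -1`. And `b_f(s) = (s + 1) c(s)` gives the functional
equation of `F` with `(s + 1) c(s + κ)`. The coefficients of the `y_i z_i` are equal to `1`, not generic:
the genericity conditions (nondegeneracy over `ℚ̄` and the position of the Bernstein-Sato polynomial)
are invariant under the torus over `ℚ`, so that no condition on `p` is needed.
-/

set_option autoImplicit false

namespace Pool.Agent.Results.MP_5d9b3c_ag.CubicsAndCompositions

open MvPolynomial Pool.Agent.X271.DQ
open Pool.Agent.Y229.PC (IsStable cubicSum comp graphExp graphFix)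
open Pool.Agent.TH216.MF (HypL)
open Pool.Agent.W425.SV (NP)
open Pool.Agent.W425.ND (spa)

/-- `f` is not constant. -/
def NonConst {n : ℕ} (f : MvPolynomial (Fin n) ℤ) : Prop :=
  (map (Int.castRingHom ℂ) f).totalDegree ≠ 0

/-- **Denef's question: transfer, reduction to cubics, stably sparse polynomials, polynomials and
compositions with generic coefficients; every prime.**

`RootsAt p f`: for every pole `T₀` of Igusa's Poincaré series `poincare p f = ∑_m a_m (p ^ (-n) T) ^ m`
(`a_m` is the number of zeros of `f` modulo `p ^ m`) the number `t₀ = - log |T₀| / log p` is a root of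
every `b ≠ 0` with `b(s) f ^ s = P(s) f ^ (s + 1)`, `P(s)` in the Weyl algebra, polynomial in `s`, so of
`b_f`. `OrdersAt p f`: the order of the pole `T₀` is at most the multiplicity of the root `t₀` of such a
`b`. (`IsPoleOfOrder P T₀ m`, `m > 0`: `P` is the rational function `A / ((T - T₀) ^ m B)`, with polynomials
`A`, `B` which do not vanish at `T₀`.) `IsStable f κ F`: `F` is `f(x) + ∑_{i < κ} y_i z_i` after an isomorphism
of polynomial rings over `ℤ`.

* Part 1. For every prime `p` the properties `RootsAt` and `OrdersAt` pass from `F` to `f`.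
* Part 2. For every prime `p`, `RootsAt p f` for all `f ≠ 0` is equivalent to `RootsAt p` for the cubic
  polynomials `cubicSum q = ∑ t_j q_j(x)`, where the `q_j` are of degree at most two, with coefficients
  `0`, `1`, `-1`, and not all zero; the same for `OrdersAt`.
* Part 3 (stably sparse polynomials). `OrdersAt p f` for all primes `p`, if `F` is `∑ a_j X ^ (v j)` with
  at least two, affinely independent, exponents and any `a_j ≠ 0`.
* Part 4 (stably generic polynomials). `v` is a family of different nonzero exponents, `h` a polynomial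
  with exponents in the Newton polyhedron `conv {v j} + ℝ_{≥ 0} ^ N` (`NP v`), and `HypL v h` holds: for
  every facet `a` of the Newton polyhedron with `N_a > 0` the level `|a| / N_a` is `1`, or it is the level
  of some `a'` whose face contains a simplex which is not B1 (`NonB`), or at every `v j` the facets of this
  level are simplices or B1 in a common direction (`LocS`). There is `g ≠ 0` such that for all non-constant
  `f` (in any number of variables) for which such an `F`, `κ ≥ 1`, is `∑ c_j X ^ (v j) + h` with
  `g(c_j t ^ (v j)) ≠ 0` for some `t ∈ (ℚ^*) ^ N` fixing `h`, `Conclusion v h κ f` holds: for all primes `p`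
  and all poles `T₀`, `t₀` is a root of `b`, `t₀ = - σ` for a rational number `σ`, and the order of the pole
  is at most the multiplicity of the root if `LocS v h (σ + κ)` holds.
* Part 5 (compositions). `f = Φ(x, p_1(x), …, p_κ(x))` (`comp m w ι h₀ h a b`), with
  `Φ = ∑_j a_j (x, z) ^ (m j) + h₀(x, z)` and `p_i = ∑_{ι l = i} b_l x ^ (w l) + h_i(x)`, where the `m j ≠ 0`
  are different and the pairs `(ι l, w l)` are different; for every `i`, `h_i = 0` or `z_i` does not occur
  in `h₀`. `graphExp m w ι` are the exponents of
  `∑_j a_j (x, z) ^ (m j) + ∑ y_i (z_i - ∑_{ι l = i} b_l x ^ (w l))` in the variables `x, y, z`, and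
  `graphFix h₀ h = h₀(x, z) - ∑ y_i h_i(x)`. If these satisfy `NP` and `HypL` then there is `g ≠ 0` such that
  `Conclusion` holds for `f` if it is non-constant and `g(a, b) ≠ 0`. -/
theorem result :
    (∀ (p : ℕ) [Fact p.Prime] (n M κ : ℕ) (f : MvPolynomial (Fin n) ℤ) (F : MvPolynomial (Fin M) ℤ),
      NonConst f → 0 < κ → IsStable f κ F →
        (RootsAt p F → RootsAt p f) ∧ (OrdersAt p F → OrdersAt p f)) ∧
    (∀ (p : ℕ) [Fact p.Prime],
      ((∀ (n : ℕ) (f : MvPolynomial (Fin n) ℤ), f ≠ 0 → RootsAt p f) ↔
        ∀ (n k : ℕ) (q : Fin k → MvPolynomial (Fin n) ℤ), q ≠ 0 → (∀ j, (q j).totalDegree ≤ 2) →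
          (∀ j d, (q j).coeff d = 0 ∨ (q j).coeff d = 1 ∨ (q j).coeff d = -1) →
          RootsAt p (cubicSum q)) ∧
      ((∀ (n : ℕ) (f : MvPolynomial (Fin n) ℤ), f ≠ 0 → OrdersAt p f) ↔
        ∀ (n k : ℕ) (q : Fin k → MvPolynomial (Fin n) ℤ), q ≠ 0 → (∀ j, (q j).totalDegree ≤ 2) →
          (∀ j d, (q j).coeff d = 0 ∨ (q j).coeff d = 1 ∨ (q j).coeff d = -1) →
          OrdersAt p (cubicSum q))) ∧
    (∀ (n M κ r : ℕ) (f : MvPolynomial (Fin n) ℤ) (v : Fin r → Fin M → ℕ) (a : Fin r → ℤ),
      2 ≤ r → AffineIndependent ℚ (fun (j : Fin r) (i : Fin M) => (v j i : ℚ)) →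
      (∀ j, a j ≠ 0) → NonConst f → IsStable f κ (spa v a) →
      ∀ p : ℕ, p.Prime → OrdersAt p f) ∧
    (∀ (R N : ℕ) (v : Fin R → Fin N → ℕ) (h : MvPolynomial (Fin N) ℤ), 0 < R →
      Function.Injective v → (∀ j, v j ≠ 0) → (∀ u ∈ h.support, NP v u) → HypL v h →
      ∃ g : MvPolynomial (Fin R) ℚ, g ≠ 0 ∧ ∀ (c : Fin R → ℤ) (t : Fin N → ℚ),
        (∀ i, t i ≠ 0) → (∀ u ∈ h.support, ∏ i, t i ^ u i = 1) →
        eval (fun j => (c j : ℚ) * ∏ i, t i ^ v j i) g ≠ 0 →
        ∀ (n κ : ℕ) (f : MvPolynomial (Fin n) ℤ), 0 < κ → NonConst f →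
          IsStable f κ (spa v c + h) → Conclusion v h κ f) ∧
    (∀ (n κ r s : ℕ) (m : Fin r → Fin n ⊕ Fin κ → ℕ) (w : Fin s → Fin n → ℕ) (ι : Fin s → Fin κ)
      (h₀ : MvPolynomial (Fin n ⊕ Fin κ) ℤ) (h : Fin κ → MvPolynomial (Fin n) ℤ),
      0 < r → 0 < κ → Function.Injective m → (∀ j, m j ≠ 0) →
      (Function.Injective fun l => (ι l, w l)) →
      (∀ i, h i = 0 ∨ ∀ u ∈ h₀.support, u (Sum.inr i) = 0) →
      (∀ u ∈ (graphFix h₀ h).support, NP (graphExp m w ι) u) →
      HypL (graphExp m w ι) (graphFix h₀ h) →
      ∃ g : MvPolynomial (Fin r ⊕ Fin s) ℚ, g ≠ 0 ∧ ∀ (a : Fin r → ℤ) (b : Fin s → ℤ),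
        eval (fun J => ((Sum.elim a b J : ℤ) : ℚ)) g ≠ 0 →
        NonConst (comp m w ι h₀ h a b) →
        Conclusion (graphExp m w ι) (graphFix h₀ h) κ (comp m w ι h₀ h a b)) :=
  ⟨fun p _ _ _ _ _ _ hf hκ hs => transfer p hf hκ hs, fun p _ => cubics p,
    fun _ _ _ _ _ v a hr hv ha hf hs p hp => stably_sparse v a hr hv ha hf hs p hp,
    fun _ _ v h hR hv hv0 hh hL => stably_generic v h hR hv hv0 hh hL,
    fun _ _ _ _ m w ι h₀ h hr hκ hm hm0 hw hS hh hL =>
      compositions hr hκ m hm hm0 w ι hw h₀ h hS hh hL⟩

end Pool.Agent.Results.MP_5d9b3c_ag.CubicsAndCompositions
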