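import Mathlib
import Pool.Agent.TH192.PA.Poinc
import Pool.Agent.X213.PoinOrd

set_option autoImplicit false

/-!
# Denef's question for forms over determinantal ideals and every prime, with orders

Let `x` be the generic matrix of one of the three spaces `S` of matrices: all `m × n` matrices, the
symmetric `n × n` matrices, the skew symmetric `n × n` matrices (`MSpace`). For `t < T` let
`F_t = ∑_j y_{t,j} M_j(x)`, where the `M_j` are the `p t`-minors of `x` (the Pfaffians of size
`2 (p t)` in the skew symmetric case), `p t < min (m, n)`, `p t < n`, or `2 (p t) + 1 < n`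
(`Small`), and the `y_{t,j}` are further variables, separate for each `t`. Let
`f = ∏ t, F_t ^ a t ∈ ℤ[x, y]` (`MSpace.formZ`).

For EVERY prime `q` and every pole `T₀` of Igusa's Poincaré series of `f`, the number
`t₀ = -log |T₀| / log q` is a root of `b_f`; the order of the pole is at most the number of the
strata `i` with `-ν_i / N_i = t₀`, and, if there is at most one, at most the multiplicity of the root.
The index `i` runs over the ranks `d` and the `t < T`, with `ν_i = codim (rank ≤ d)` (`S.nu`),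
`N_i = ∑ t, a t max (p t - d, 0)` (`mulN`), and `ν_i = 1`, `N_i = a t`.
-/

namespace Pool.Agent.Results.MP_5d9b3c_ag.DeterminantalForms

open Pool.Agent.TH192.DT Pool.Agent.TH192.PA
open Pool.Agent.W206.CU (poincare IsPoleOfOrder)

theorem result (S : MSpace) (T : ℕ) (p a : Fin T → ℕ) (hp : ∀ t, S.Small (p t))
    (q : ℕ) (hq : q.Prime) (T₀ : ℂ) (μ : ℕ) (hμ : 0 < μ)
    (hP : IsPoleOfOrder (poincare q (S.formZ p a)) T₀ μ) (b : Polynomial ℂ) (hb0 : b ≠ 0)
    (hb : Pool.Agent.H628R4.TP.IsBFunction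
      (MvPolynomial.map (Int.castRingHom ℂ) (S.formZ p a)) b) :
    b.eval ((-Real.log ‖T₀‖ / Real.log q : ℝ) : ℂ) = 0 ∧
    μ ≤ Nat.card {i // 0 < mulN S.rk p a i ∧
      -Real.log ‖T₀‖ / Real.log q = -((S.nu T i : ℝ) / mulN S.rk p a i)} ∧
    (Nat.card {i // 0 < mulN S.rk p a i ∧
        -Real.log ‖T₀‖ / Real.log q = -((S.nu T i : ℝ) / mulN S.rk p a i)} ≤ 1 →
      μ ≤ b.rootMultiplicity ((-Real.log ‖T₀‖ / Real.log q : ℝ) : ℂ)) := by
  have : Fact q.Prime := ⟨hq⟩
  obtain ⟨Z, s₀, hZ, hZi, hZo, hre⟩ := Pool.Agent.X213.PoinOrd.pole_of_poincare_ord q (S.formZ p a)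
    (null_gen (formZ_ne S p a hp)) hμ hP
  have h1 := poincare_root (q := q) S T p a hp T₀ μ hμ hP b hb
  have h2 := igusa_poles S T p a hp Z hZ hZi s₀
  rw [hre] at h2
  refine ⟨h1, ?_, fun hc => ?_⟩
  · have h3 := h2.trans hZo
    have h4 : (-(Nat.card {i // 0 < mulN S.rk p a i ∧
      -Real.log ‖T₀‖ / Real.log q = -((S.nu T i : ℝ) / mulN S.rk p a i)} : ℤ) : ℤ) ≤ -(μ : ℤ) := by
      exact_mod_cast h3
    omega
  · rw [← hre] at hc
    have hb' := hb
    rw [S.map_formZ] at hb'
    have h3 := (igusa_order S T p a hp Z hZ hZi s₀ hc b hb0 hb').trans hZo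
    rw [hre] at h3
    have h4 : (-(b.rootMultiplicity ((-Real.log ‖T₀‖ / Real.log q : ℝ) : ℂ) : ℤ) : ℤ) ≤
        -(μ : ℤ) := by exact_mod_cast h3
    omega

end Pool.Agent.Results.MP_5d9b3c_ag.DeterminantalForms
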