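import Mathlib
import Pool.Agent.Y228.PG.PW7

/-!
# Igusa's Poincaré series of nondegenerate polynomials in four variables, modulo `ℤ`

Let `f = ∑_j c_j x ^ (v j) ∈ ℤ[x_1, …, x_4]`, `f(0) = 0`, be a polynomial in four variables which is
nondegenerate for the compact faces of its Newton polyhedron `Γ = conv {v j} + ℝ_{≥ 0} ^ 4`. There is
NO condition on the polyhedron, the coefficients are not assumed to be generic in any other sense, `f`
need not be convenient, and the singularities need not be isolated. If `f` is homogeneous, or if `f` is
nondegenerate for all the faces of `Γ` and satisfies the condition `GlobK` on the exponents which are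
not vertices, then for all primes `p` outside a finite set and every pole `T₀` of Igusa's Poincaré
series of `f` at `p` the number `t₀ = - log |T₀| / log p` is congruent modulo `ℤ` to a root of every
local `b`-function of `f` at the origin. In particular `exp (2 π i t₀)` is an eigenvalue of the
monodromy (the weak form of Denef's question).

Method. The functional equation of a local `b`-function gives relations for the exponents at the
vertices, and these a multiplicative identity for the series
`∑_u p ^ (-|u|) F (⟨u, m_1⟩ - t, …, ⟨u, m_k⟩ - t)`, modulo an ideal in a polynomial ring. The candidate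
pole of a facet is a root modulo `ℤ` if the facet contains a simplex which is not `B1`, a suitable
circuit, or if `-(1, …, 1)` is a combination of independent vertices of a lower face without negative
integers as coefficients. In four variables every other facet whose candidate pole is not an integer
is a simplex, is `B1`, or it is compact and `B2`; the numbers of zeros in the tori over the residue
field of the polynomials of these faces satisfy linear relations, by which their contributions cancel.
The poles of the Poincaré series are compared with those of the zeta function of `f` over `ℤ_p ^ 4`.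
-/

set_option autoImplicit false

namespace Pool.Agent.Results.MP_5d9b3c_ag.NondegenerateFourVariables

open Pool.Agent.W425.ND
open Pool.Agent.W206.CU (poincare IsPoleOfOrder)
open Pool.Agent.Y229.CF (NondegC)
open Pool.Agent.Y228.GN (NondegP)
open Pool.Agent.Y228.PG (GlobK)

/-- **Denef's question modulo `ℤ` for the nondegenerate polynomials over `ℤ` in four variables which
are homogeneous, or nondegenerate for all the faces with the condition `GlobK` on the terms which are
not vertices; almost all primes.**

`spa v c` is `f = ∑_j c_j x ^ (v j)` (over `ℤ`, and over `ℂ`). `NondegC v c` says that `f` is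
nondegenerate for the compact faces of its Newton polyhedron `Γ = conv {v j} + ℝ_{≥ 0} ^ 4`: for every
linear form `w` with positive coefficients the polynomial of the face where `w` is minimal and its
logarithmic derivatives have no common zero in `(ℂ \ 0) ^ 4`; `NondegP v c` says this for all `w` with
nonnegative coefficients, hence for all the faces of `Γ`. `GlobK v 0`: for every `J ≠ {1, …, 4}` such
that `f` vanishes on `{x_i = 0, i ∈ J}`, if a vertex `v j` of `Γ` has a coordinate `1` in `J`, then no
`v l` which is not a vertex has the same coordinates in `J` as `v j`.

`poincare p f = ∑_m a_m (p ^ (-4) T) ^ m`, `a_m` the number of zeros of `f` modulo `p ^ m`.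
`IsPoleOfOrder P T₀ m`, `m > 0`, says that the rational function `P` has a pole of order `m` at `T₀`.
`IsLocalBFunction f b` says that `b(s) f ^ s = P(s) f ^ (s + 1)` for a differential operator `P(s)`,
polynomial in `s`, with formal power series coefficients; the Bernstein-Sato polynomials `b_f` and
`b_{f,0}` are such polynomials `b`. -/
theorem result {r : ℕ} (hr : 0 < r) (v : Fin r → Fin 4 → ℕ) (c : Fin r → ℤ)
    (hv : Function.Injective v) (hv0 : ∀ j, v j ≠ 0) (hc : ∀ j, c j ≠ 0)
    (hnd : NondegC v (fun j => ((c j : ℤ) : ℂ)))
    (hG : (∃ d, ∀ j, ∑ i, v j i = d) ∨
      (NondegP v (fun j => ((c j : ℤ) : ℂ)) ∧ GlobK v 0)) :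
    ∃ S : Finset ℕ, ∀ p : ℕ, p.Prime → p ∉ S →
      ∀ (T₀ : ℂ) (m : ℕ), 0 < m → IsPoleOfOrder (poincare p (spa v c)) T₀ m →
      ∀ b : Polynomial ℂ,
        Pool.Agent.H628R4.TP.IsLocalBFunction (spa v (fun j => ((c j : ℤ) : ℂ))) b →
        ∃ i : ℤ, b.eval (((-Real.log ‖T₀‖ / Real.log p : ℝ) : ℂ) - i) = 0 :=
  Pool.Agent.Y228.PG.ndP hr v c hv hv0 hc hnd hG

end Pool.Agent.Results.MP_5d9b3c_ag.NondegenerateFourVariables
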