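import Mathlib
import Pool.Agent.TH216.EP.GenP

/-!
# Poles of Igusa's Poincaré series, generic integral coefficients, any number of variables, EVERY
prime: simplices and B1-facets in a direction depending on the vertex

Let `f = ∑_j c_j x ^ (v j) + h`, where `h ∈ ℤ[x_1, …, x_n]` is an ARBITRARY polynomial whose exponents
lie in the Newton polyhedron of the `v j ≠ 0`, and only the integral coefficients `c_j` (for instance
at the vertices of the Newton polyhedron of `f`) are generic: `g(c) ≠ 0` for a certain nonzero
polynomial `g` with rational coefficients, which depends only on the `v j` and `h`, not on a prime. For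
every candidate pole `- |a| / N_a ≠ -1` either a facet of the same candidate pole contains a simplex
which is not B1, or at every `v j` the facets of the candidate pole through `v j` are simplices or
`B1`-facets in a common direction. Then for EVERY prime `p` (no good reduction is assumed) and every
pole `T₀` of Igusa's Poincaré series of `f`, the number `t₀ = - log |T₀| / log p` is a root of the
Bernstein-Sato polynomial of `f`; if the second condition holds for `t₀`, then the order of the pole
is at most the multiplicity of this root.

Method. If the `c_j` are algebraically independent over `ℚ`, the functional equation of `b_f` gives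
an identity in a polynomial ring with one variable for every `v j`. It is extended to the monomials
outside of the convex hull of the `v j`, and turned into a multiplicative identity for the series
`∑_u p ^ (-|u|) F (⟨u, m_1⟩ - t, …, ⟨u, m_k⟩ - t)`. For every prime the coefficients of the Poincaré
series are such sums: on `{x | ord x_i = u_i}` the condition `p ^ t ∣ f(x)` is a condition on units
depending only on the numbers `⟨u, m_j⟩ + ord(c_j) - t`. As `f` is nondegenerate over `ℚ̄`, a
compactness argument (Dickson's lemma) and Hensel's lemma show that the measure of this set of units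
is multiplied by `p⁻¹` under a simultaneous shift, as soon as one of these numbers is very negative.
Gröbner bases in the Weyl algebra over `ℚ(c_1, …, c_r)` compare the generic Bernstein-Sato polynomial
with the one of a single member.
-/

set_option autoImplicit false

namespace Pool.Agent.Results.MP_5d9b3c_ag.SimplicialOrB1EveryPrime

open Pool.Agent.W206.CU (poincare IsPoleOfOrder)

/-- **Denef's question on the poles of Igusa's Poincaré series for the polynomials
`f = ∑_j c_j x ^ (v j) + h` over `ℤ`, in any number of variables, with generic coefficients `c_j`, EVERY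
prime `p`; simplices, and `B1`-facets in a direction depending on the vertex.**

`spa v c` is the polynomial `∑_j c_j x ^ (v j)`. `NP v w` says that `w` is in the Newton polyhedron
`conv {v j} + ℝ_{≥ 0} ^ n`.

`HypL v h` says that for every ray `a` of the normal fan of the Newton polyhedron (`IsRay v a`)
with `N_a := gord v a = min_j ⟨a, v j⟩ > 0` one of the following holds:
* `|a| = N_a` (the candidate pole is `-1`);
* `|a| / N_a = |a'| / N_{a'}` for some `a' ∈ ℕ ^ n` with `N_{a'} > 0` and `NonB v False a'`: there is a
  set `J` of `#{i | a' i ≠ 0}` elements with `⟨a', v j⟩ = N_{a'}` for `j ∈ J` such that the vectors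
  `(v j i)_{a' i ≠ 0}`, `j ∈ J`, are linearly independent and such that no variable `x_i` with
  `a' i ≠ 0` occurs in exactly one of the monomials `x ^ (v j)`, `j ∈ J`, and there with exponent `1`;
* `LocS v h σ` for `σ = |a| / N_a`: for every `v j1` there is a variable `x_i` such that each of the rays
  `a'` with `N_{a'} > 0`, `|a'| / N_{a'} = σ` and `⟨a', v j1⟩ = N_{a'}` (the facets through `v j1`)
  satisfies one of
  - its facet is a simplex (`SimH v h a'`): the vectors `(v j i)_{a' i ≠ 0}`, for the `j` with
    `⟨a', v j⟩ = N_{a'}`, are linearly independent, and the exponents `w` of `h` with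
    `⟨a', w⟩ = N_{a'}` are in the convex hull of the `v j` (automatic if all `a' i ≠ 0`);
  - it is B1 in the direction `i` (`BD v h i a'`): `a' i ≠ 0`, and among the
    monomials of the face of `a'` (the `x ^ (v j)` and the monomials of `h` of minimal `a'`-weight
    `N_{a'}`) exactly one is divisible by `x_i`; this one is some `x ^ (v j0)` with `v j0 i = 1`
    (it may also occur in `h`).

`poincare p f = ∑_m a_m (p ^ (-n) T) ^ m`, `a_m` the number of zeros of `f` modulo `p ^ m`.
`IsPoleOfOrder P T₀ m`, `m > 0`, says that `P = A / ((T - T₀) ^ m B)` with polynomials `A`, `B` which do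
not vanish at `T₀`: the rational function `P` has a pole of order `m` at `T₀`. `IsBFunction f b` says
that `b(s) f ^ s = P(s) f ^ (s + 1)` for a differential operator `P(s)` in the Weyl algebra, polynomial
in `s`; the Bernstein-Sato polynomial `b_f` is one of these polynomials `b`.

Conclusion, for every prime `p` and every pole `T₀`: `t₀ = - log |T₀| / log p` is a root of every
`b ≠ 0` as above, so of `b_f`; and `t₀ = - σ` with `σ` rational, where the order `m` of the pole is at
most the multiplicity of `t₀` as a root of `b` if `LocS v h σ` holds (for instance if `σ` is not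
`|a| / N_a` for a ray `a`, so if `t₀ = -1` is no such number, or if the facets with this number are
simplices). -/
theorem result {n r : ℕ} (hr : 0 < r) (v : Fin r → Fin n → ℕ) (hv : Function.Injective v)
    (hv0 : ∀ j, v j ≠ 0) (h : MvPolynomial (Fin n) ℤ)
    (hh : ∀ w ∈ h.support, Pool.Agent.W425.SV.NP v w) (hL : Pool.Agent.TH216.MF.HypL v h) :
    ∃ g : MvPolynomial (Fin r) ℚ, g ≠ 0 ∧
      ∀ c : Fin r → ℤ, MvPolynomial.eval (fun j => (c j : ℚ)) g ≠ 0 →
      ∀ p : ℕ, p.Prime →
        ∀ (T₀ : ℂ) (m : ℕ), 0 < m →
        IsPoleOfOrder (poincare p (Pool.Agent.W425.ND.spa v c + h)) T₀ m →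
        ∀ b : Polynomial ℂ, b ≠ 0 →
          Pool.Agent.H628R4.TP.IsBFunction
            (MvPolynomial.map (Int.castRingHom ℂ) (Pool.Agent.W425.ND.spa v c + h)) b →
          b.eval ((-Real.log ‖T₀‖ / Real.log p : ℝ) : ℂ) = 0 ∧
          ∃ σ : ℚ, -Real.log ‖T₀‖ / Real.log p = -(σ : ℝ) ∧
            (Pool.Agent.TH216.MF.LocS v h σ →
              m ≤ b.rootMultiplicity ((-Real.log ‖T₀‖ / Real.log p : ℝ) : ℂ)) :=
  Pool.Agent.TH216.EP.genPE hr v hv hv0 h hh hL

end Pool.Agent.Results.MP_5d9b3c_ag.SimplicialOrB1EveryPrime
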